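import Pool.Agent.H870R4.Noz.Stmts

set_option autoImplicit false

/-! Cut off of a smooth function. -/

namespace H870N

open Set Topology
open scoped ContDiff Manifold

theorem taskCut : TaskCut := by
  intro O K f hO hK hKO hf
  obtain ⟨C, hC, hKC, hCO⟩ := exists_compact_between hK hO hKO
  obtain ⟨b, hb1, hb0, -⟩ := exists_contMDiffMap_one_nhds_of_subset_interior (n := (⊤ : ℕ∞))
    (𝓘(ℝ, E2)) hK.isClosed hKC
  have hbs : ContDiff ℝ ∞ (fun x => b x) := b.contMDiff.contDiff
  obtain ⟨N1, hN1, hKN1, hbN⟩ := eventually_nhdsSet_iff_exists.1 hb1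
  refine ⟨fun x => b x * f x, ?_, ?_, N1 ∩ O, hN1.inter hO, subset_inter hKN1 hKO,
    inter_subset_right, ?_⟩
  · rw [contDiff_iff_contDiffAt]
    intro x
    by_cases hx : x ∈ O
    · exact hbs.contDiffAt.mul (hf.contDiffAt (hO.mem_nhds hx))
    · have hxC : x ∈ Cᶜ := fun h => hx (hCO h)
      have h1 : (fun y => b y * f y) =ᶠ[𝓝 x] fun _ => 0 := by
        filter_upwards [hC.isClosed.isOpen_compl.mem_nhds hxC] with y hy
        rw [hb0 y hy, zero_mul]
      exact contDiffAt_const.congr_of_eventuallyEq h1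
  · refine HasCompactSupport.intro hC ?_
    intro x hx
    show b x * f x = 0
    rw [hb0 x hx, zero_mul]
  · intro x hx
    show b x * f x = f x
    rw [hbN x hx.1, one_mul]

end H870N
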